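import Mathlib
import Pool.Agent.X317.Kos.Hom

/-!
# Dimensions of Koszul homology
-/

set_option autoImplicit false
set_option linter.all false

open Finset Pool.Agent.X317.Kos

namespace Pool.Agent.X317.Sem

variable {n : ℕ} {k A M : Type*} [Field k] [CommRing A] [Algebra k A] [AddCommGroup M] [Module A M]
  [Module k M] [IsScalarTower k A M]

theorem finrank_chains [Module.Finite k M] (n i : ℕ) :
    Module.finrank k ↥(chains A M n i) = n.choose i * Module.finrank k M := by
  classical
  let e : ↥(chains A M n i) ≃ₗ[k] ({T : Finset (Fin n) // T.card = i} → M) :=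
    { toFun := fun a T => (a : Finset (Fin n) → M) T
      map_add' := fun a b => rfl
      map_smul' := fun c a => rfl
      invFun := fun h => ⟨fun T => if hT : T.card = i then h ⟨T, hT⟩ else 0, by
        intro T hT
        exact dif_neg hT⟩
      left_inv := by
        intro a
        apply Subtype.ext
        funext T
        by_cases hT : T.card = i
        · exact dif_pos hT
        · exact (dif_neg hT).trans (a.2 T hT).symm
      right_inv := by
        intro h
        funext T
        exact dif_pos T.2 }
  rw [e.finrank_eq, Module.finrank_pi_fintype, Finset.sum_const, smul_eq_mul, Finset.card_univ,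
    Fintype.card_subtype]
  congr 1
  have h1 : (univ.filter fun T : Finset (Fin n) => T.card = i) = Finset.powersetCard i univ := by
    ext T
    rw [Finset.mem_filter, Finset.mem_powersetCard]
    exact ⟨fun h => ⟨Finset.subset_univ _, h.2⟩, fun h => ⟨Finset.mem_univ _, h.2⟩⟩
  rw [h1, Finset.card_powersetCard, Finset.card_univ, Fintype.card_fin]

/-- the differential on the chains of degree `i` -/
def difK (k : Type*) {A M : Type*} [Field k] [CommRing A] [Algebra k A] [AddCommGroup M]
    [Module A M] [Module k M] [IsScalarTower k A M] {n : ℕ} (x : Fin n → A) (i : ℕ) :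
    ↥(chains A M n i) →ₗ[k] (Finset (Fin n) → M) :=
  ((dif M x).domRestrict (chains A M n i)).restrictScalars k

theorem difK_apply (x : Fin n → A) (i : ℕ) (f : ↥(chains A M n i)) :
    difK k x i f = dif M x (f : Finset (Fin n) → M) := rfl

theorem finrank_range (x : Fin n → A) (i : ℕ) :
    Module.finrank k ↥(LinearMap.range (difK k (M := M) x (i + 1))) =
      Module.finrank k ↥(boundaries x M i) := by
  have h1 : LinearMap.range (difK k (M := M) x (i + 1)) =
      (boundaries x M i).restrictScalars k := by
    ext f
    rw [LinearMap.mem_range, Submodule.restrictScalars_mem, mem_boundaries]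
    constructor
    · rintro ⟨w, hw⟩
      exact ⟨w, w.2, hw⟩
    · rintro ⟨w, hw, hwf⟩
      exact ⟨⟨w, hw⟩, hwf⟩
  rw [h1]
  rfl

theorem finrank_ker (x : Fin n → A) (i : ℕ) :
    Module.finrank k ↥(LinearMap.ker (difK k (M := M) x i)) =
      Module.finrank k ↥(cycles x M i) := by
  let e : ↥(LinearMap.ker (difK k (M := M) x i)) ≃ₗ[k] ↥(cycles x M i) :=
    { toFun := fun a => ⟨(a : ↥(chains A M n i)), mem_cycles.2 ⟨(a : ↥(chains A M n i)).2, a.2⟩⟩
      map_add' := fun a b => rfl
      map_smul' := fun c a => rfl
      invFun := fun a => ⟨⟨a, (mem_cycles.1 a.2).1⟩, (mem_cycles.1 a.2).2⟩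
      left_inv := fun a => rfl
      right_inv := fun a => rfl }
  exact e.finrank_eq

theorem finrank_homology [Module.Finite k M] (x : Fin n → A) (i : ℕ) :
    Module.finrank k (Homology x M i) + Module.finrank k ↥(boundaries x M i) =
      Module.finrank k ↥(cycles x M i) := by
  have i1 : Module.Finite k ↥(cycles x M i) := by
    have : Module.Finite k ↥((cycles x M i).restrictScalars k) := inferInstance
    exact this
  have h1 := Submodule.finrank_quotient_add_finrank
    (((boundaries x M i).submoduleOf (cycles x M i)).restrictScalars k)
  have h2 := (Submodule.Quotient.restrictScalarsEquiv k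
    ((boundaries x M i).submoduleOf (cycles x M i))).finrank_eq
  have h3 : Module.finrank k ↥(((boundaries x M i).submoduleOf (cycles x M i)).restrictScalars k) =
      Module.finrank k ↥(boundaries x M i) := by
    let e : ↥(((boundaries x M i).submoduleOf (cycles x M i)).restrictScalars k) ≃ₗ[k]
        ↥(boundaries x M i) :=
      { toFun := fun a => ⟨(a : ↥(cycles x M i)), a.2⟩
        map_add' := fun a b => rfl
        map_smul' := fun c a => rfl
        invFun := fun a => ⟨⟨a, boundaries_le a.2⟩, a.2⟩
        left_inv := fun a => rfl
        right_inv := fun a => rfl }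
    exact e.finrank_eq
  rw [h3] at h1
  rw [← h2]
  exact h1

theorem finrank_main [Module.Finite k M] (x : Fin n → A) (i : ℕ) :
    Module.finrank k (Homology x M (i + 1)) + Module.finrank k ↥(boundaries x M (i + 1)) +
      Module.finrank k ↥(boundaries x M i) = n.choose (i + 1) * Module.finrank k M := by
  have i1 : Module.Finite k ↥(chains A M n (i + 1)) := by
    have : Module.Finite k ↥((chains A M n (i + 1)).restrictScalars k) := inferInstance
    exact this
  have h1 := finrank_homology (k := k) (M := M) x (i + 1)
  have h2 := LinearMap.finrank_range_add_finrank_ker (difK k (M := M) x (i + 1))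
  rw [finrank_range, finrank_ker, finrank_chains] at h2
  omega

/-- the rank of the differential from a surjection with the same kernel -/
theorem finrank_boundaries [Module.Finite k M] (x : Fin n → A) (i : ℕ) {E : Type*}
    [AddCommGroup E] [Module k E] [Module.Finite k E] (Θ : ↥(chains A M n (i + 1)) →ₗ[k] E)
    (hΘ : Function.Surjective Θ) (hker : ∀ f, Θ f = 0 ↔ dif M x (f : Finset (Fin n) → M) = 0) :
    Module.finrank k ↥(boundaries x M i) = Module.finrank k E := by
  have i1 : Module.Finite k ↥(chains A M n (i + 1)) := by
    have : Module.Finite k ↥((chains A M n (i + 1)).restrictScalars k) := inferInstance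
    exact this
  have h2 := LinearMap.finrank_range_add_finrank_ker (difK k (M := M) x (i + 1))
  have h3 := LinearMap.finrank_range_add_finrank_ker Θ
  rw [finrank_range] at h2
  have h4 : LinearMap.ker Θ = LinearMap.ker (difK k (M := M) x (i + 1)) := by
    ext f
    rw [LinearMap.mem_ker, LinearMap.mem_ker, hker]
    rfl
  rw [LinearMap.range_eq_top.2 hΘ, finrank_top, h4] at h3
  omega

end Pool.Agent.X317.Sem
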