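import Mathlib
import Pool.Agent.X317.Sem.Rank

/-!
# Koszul homology modulo a regular element
-/

set_option autoImplicit false
set_option linter.all false

open Finset Pool.Agent.X317.Kos

namespace Pool.Agent.X317.Sem

variable {n : ℕ}

/-- the subset of `{1, …, n}` corresponding to a subset of `{0, …, n - 1}` -/
def up (T : Finset (Fin n)) : Finset (Fin (n + 1)) := T.map (Fin.succEmb n)

/-- the inverse of `up` -/
def dn (T : Finset (Fin (n + 1))) : Finset (Fin n) := univ.filter fun j => j.succ ∈ T

theorem mem_dn {T : Finset (Fin (n + 1))} {j : Fin n} : j ∈ dn T ↔ j.succ ∈ T := by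
  rw [dn, Finset.mem_filter]
  exact ⟨fun h => h.2, fun h => ⟨Finset.mem_univ _, h⟩⟩

theorem succ_mem_up {T : Finset (Fin n)} {j : Fin n} : j.succ ∈ up T ↔ j ∈ T := by
  rw [up, Finset.mem_map]
  constructor
  · rintro ⟨i, hi, h⟩
    rw [← Fin.succ_injective _ h]
    exact hi
  · intro h
    exact ⟨j, h, rfl⟩

theorem zero_notMem_up (T : Finset (Fin n)) : (0 : Fin (n + 1)) ∉ up T := by
  rw [up, Finset.mem_map]
  rintro ⟨i, hi, h⟩
  exact Fin.succ_ne_zero i h

theorem card_up (T : Finset (Fin n)) : (up T).card = T.card := Finset.card_map _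

theorem dn_up (T : Finset (Fin n)) : dn (up T) = T := by
  ext j
  rw [mem_dn, succ_mem_up]

theorem dn_insert (T : Finset (Fin n)) : dn (insert 0 (up T)) = T := by
  ext j
  rw [mem_dn, Finset.mem_insert, succ_mem_up]
  exact ⟨fun h => h.resolve_left (Fin.succ_ne_zero j), fun h => Or.inr h⟩

theorem up_dn {T : Finset (Fin (n + 1))} (h : (0 : Fin (n + 1)) ∉ T) : up (dn T) = T := by
  ext j
  induction j using Fin.cases with
  | zero => exact ⟨fun h1 => absurd h1 (zero_notMem_up _), fun h1 => absurd h1 h⟩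
  | succ j => rw [succ_mem_up, mem_dn]

theorem insert_up_dn {T : Finset (Fin (n + 1))} (h : (0 : Fin (n + 1)) ∈ T) :
    insert 0 (up (dn T)) = T := by
  ext j
  induction j using Fin.cases with
  | zero => exact ⟨fun _ => h, fun _ => Finset.mem_insert_self _ _⟩
  | succ j =>
    rw [Finset.mem_insert, succ_mem_up, mem_dn]
    exact ⟨fun h => h.resolve_left (Fin.succ_ne_zero j), fun h => Or.inr h⟩

theorem up_insert (T : Finset (Fin n)) (j : Fin n) : up (insert j T) = insert j.succ (up T) := by
  rw [up, Finset.map_insert]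
  rfl

theorem compl_up (T : Finset (Fin n)) : (up T)ᶜ = insert 0 (up Tᶜ) := by
  ext j
  induction j using Fin.cases with
  | zero =>
    exact ⟨fun _ => Finset.mem_insert_self _ _, fun _ => Finset.mem_compl.2 (zero_notMem_up _)⟩
  | succ j =>
    rw [Finset.mem_insert, Finset.mem_compl, succ_mem_up, succ_mem_up, Finset.mem_compl]
    exact ⟨fun h => Or.inr h, fun h => h.resolve_left (Fin.succ_ne_zero j)⟩

theorem compl_insert_up (T : Finset (Fin n)) : (insert 0 (up T))ᶜ = up Tᶜ := by
  ext j
  induction j using Fin.cases with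
  | zero =>
    exact ⟨fun h => absurd (Finset.mem_insert_self _ _) (Finset.mem_compl.1 h),
      fun h => absurd h (zero_notMem_up _)⟩
  | succ j =>
    rw [Finset.mem_compl, Finset.mem_insert, succ_mem_up, succ_mem_up, Finset.mem_compl, not_or]
    exact ⟨fun h => h.2, fun h => ⟨Fin.succ_ne_zero j, h⟩⟩

theorem sgn_up_succ (T : Finset (Fin n)) (j : Fin n) : sgn (up T) j.succ = sgn T j := by
  unfold sgn
  congr 1
  have h : (up T).filter (fun t => t < j.succ) = up (T.filter (fun t => t < j)) := by
    ext t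
    induction t using Fin.cases with
    | zero =>
      exact ⟨fun h => absurd (Finset.mem_filter.1 h).1 (zero_notMem_up _),
        fun h => absurd h (zero_notMem_up _)⟩
    | succ t =>
      rw [Finset.mem_filter, succ_mem_up, succ_mem_up, Finset.mem_filter, Fin.succ_lt_succ_iff]
  rw [h, card_up]

theorem sgn_up_zero (T : Finset (Fin n)) : sgn (up T) 0 = 1 := by
  unfold sgn
  rw [Finset.filter_false_of_mem (fun t _ => Fin.not_lt_zero t), Finset.card_empty, pow_zero]

variable {A M M' : Type*} [CommRing A] [AddCommGroup M] [Module A M] [AddCommGroup M'] [Module A M']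

theorem dif_up (x : Fin (n + 1) → A) (f : Finset (Fin (n + 1)) → M) (T : Finset (Fin n)) :
    dif M x f (up T) = x 0 • f (insert 0 (up T)) +
      ∑ j ∈ Tᶜ, sgn T j • x j.succ • f (up (insert j T)) := by
  rw [dif_apply, compl_up, Finset.sum_insert (zero_notMem_up _), sgn_up_zero, one_smul]
  congr 1
  rw [up, Finset.sum_map]
  refine Finset.sum_congr rfl fun j _ => ?_
  rw [up_insert]
  show sgn (up T) j.succ • x j.succ • f (insert j.succ (up T)) = _
  rw [sgn_up_succ]

/-- the restriction to the subsets without `0`, followed by a linear map -/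
def restr (π : M →ₗ[A] M') : (Finset (Fin (n + 1)) → M) →ₗ[A] (Finset (Fin n) → M') where
  toFun f T := π (f (up T))
  map_add' f g := by
    funext T
    exact map_add π _ _
  map_smul' c f := by
    funext T
    exact map_smul π _ _

theorem restr_apply (π : M →ₗ[A] M') (f : Finset (Fin (n + 1)) → M) (T : Finset (Fin n)) :
    restr π f T = π (f (up T)) := rfl

theorem restr_dif (π : M →ₗ[A] M') (x : Fin (n + 1) → A) (hπ : ∀ m, π (x 0 • m) = 0)
    (f : Finset (Fin (n + 1)) → M) :
    restr π (dif M x f) = dif M' (fun j => x j.succ) (restr π f) := by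
  funext T
  rw [restr_apply, dif_up, map_add, hπ, zero_add, map_sum, dif_apply]
  refine Finset.sum_congr rfl fun j _ => ?_
  rw [map_zsmul, map_smul, restr_apply]

/-- the function on all subsets from a function on the subsets without `0` -/
def extd (g h : Finset (Fin n) → M) : Finset (Fin (n + 1)) → M := fun T =>
  if (0 : Fin (n + 1)) ∈ T then h (dn T) else g (dn T)

theorem extd_up (g h : Finset (Fin n) → M) (T : Finset (Fin n)) : extd g h (up T) = g T := by
  unfold extd
  rw [if_neg (zero_notMem_up T), dn_up]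

theorem extd_insert (g h : Finset (Fin n) → M) (T : Finset (Fin n)) :
    extd g h (insert 0 (up T)) = h T := by
  unfold extd
  rw [if_pos (Finset.mem_insert_self _ _), dn_insert]

theorem ext_subsets {f g : Finset (Fin (n + 1)) → M} (h1 : ∀ T, f (up T) = g (up T))
    (h2 : ∀ T, f (insert 0 (up T)) = g (insert 0 (up T))) : f = g := by
  funext T
  by_cases h : (0 : Fin (n + 1)) ∈ T
  · rw [← insert_up_dn h]
    exact h2 _
  · rw [← up_dn h]
    exact h1 _

variable (π : M →ₗ[A] M') (x : Fin (n + 1) → A) (hreg : ∀ m : M, x 0 • m = 0 → m = 0)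
  (hsurj : Function.Surjective π) (hker : ∀ m, π m = 0 ↔ ∃ m', m = x 0 • m')

include hreg in
/-- a cycle vanishing on the subsets without `0` is zero -/
theorem cycle_eq_zero {f : Finset (Fin (n + 1)) → M} (hf : dif M x f = 0)
    (h : ∀ T, f (up T) = 0) : f = 0 := by
  refine ext_subsets h fun T => ?_
  have h1 := congrFun hf (up T)
  rw [dif_up] at h1
  rw [Finset.sum_eq_zero (fun j _ => by rw [h, smul_zero, smul_zero]), add_zero] at h1
  exact hreg _ h1

include hreg hsurj hker in
theorem lift_cycle {i : ℕ} {g : Finset (Fin n) → M'}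
    (hg : g ∈ cycles (fun j => x j.succ) M' i) :
    ∃ f ∈ cycles x M i, restr π f = g := by
  classical
  rw [mem_cycles] at hg
  choose s hs using hsurj
  have hz : ∀ m, π (x 0 • m) = 0 := fun m => (hker _).2 ⟨m, rfl⟩
  obtain ⟨f0, hf0u, hf0i⟩ : ∃ f0 : Finset (Fin (n + 1)) → M, (∀ T, f0 (up T) = s (g T)) ∧
      ∀ T, f0 (insert 0 (up T)) = 0 :=
    ⟨extd (fun T => s (g T)) (fun _ => 0), fun T => extd_up _ _ T, fun T => extd_insert _ _ T⟩
  have hf0 : restr π f0 = g := by
    funext T
    rw [restr_apply, hf0u, hs]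
  have h1 : ∀ T, ∃ m, dif M x f0 (up T) = x 0 • m := by
    intro T
    rw [← hker]
    have h2 := congrFun (restr_dif π x hz f0) T
    rw [restr_apply, hf0, hg.2] at h2
    exact h2
  choose h hh using h1
  obtain ⟨F0, hFu, hFi⟩ : ∃ F0 : Finset (Fin (n + 1)) → M, (∀ T, F0 (up T) = s (g T)) ∧
      ∀ T, F0 (insert 0 (up T)) = - h T :=
    ⟨extd (fun T => s (g T)) (fun T => - h T), fun T => extd_up _ _ T, fun T => extd_insert _ _ T⟩
  have hF1 : ∀ T, dif M x F0 (up T) = 0 := by
    intro T
    have h3 := hh T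
    rw [dif_up, hf0i, smul_zero, zero_add] at h3
    rw [dif_up, hFi, smul_neg, ← h3]
    have h4 : ∀ j, F0 (up (insert j T)) = f0 (up (insert j T)) := fun j => by
      rw [hFu, hf0u]
    simp only [h4]
    exact neg_add_cancel _
  have hF2 : dif M x F0 = 0 := cycle_eq_zero x hreg (dif_dif x F0) hF1
  refine ⟨comp i F0, ?_, ?_⟩
  · rw [mem_cycles]
    refine ⟨comp_supp i F0, ?_⟩
    cases i with
    | zero =>
      funext T
      rw [dif_apply]
      refine Finset.sum_eq_zero fun j hj => ?_
      rw [Finset.mem_compl] at hj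
      rw [comp_supp, smul_zero, smul_zero]
      rw [Finset.card_insert_of_notMem hj]
      omega
    | succ i =>
      rw [dif_comp, hF2]
      funext T
      unfold comp
      split_ifs <;> rfl
  · funext T
    rw [restr_apply]
    by_cases hT : T.card = i
    · rw [comp, if_pos (by rw [card_up, hT]), hFu, hs]
    · rw [comp_supp i F0 _ (by rw [card_up]; exact hT), map_zero, hg.1 T hT]

include hreg hsurj hker in
theorem mem_boundaries_of_restr {i : ℕ} {f : Finset (Fin (n + 1)) → M}
    (hf : f ∈ cycles x M i) (h : restr π f ∈ boundaries (fun j => x j.succ) M' i) :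
    f ∈ boundaries x M i := by
  classical
  have hz : ∀ m, π (x 0 • m) = 0 := fun m => (hker _).2 ⟨m, rfl⟩
  rw [mem_cycles] at hf
  rw [mem_boundaries] at h
  obtain ⟨w', hw', hwf⟩ := h
  choose s hs using hsurj
  obtain ⟨w0, hw0u⟩ : ∃ w0 : Finset (Fin (n + 1)) → M, ∀ T, w0 (up T) = s (w' T) :=
    ⟨extd (fun T => s (w' T)) (fun _ => 0), fun T => extd_up _ _ T⟩
  have hw0 : restr π w0 = w' := by
    funext T
    rw [restr_apply, hw0u, hs]
  have h1 : ∀ T, ∃ m, f (up T) - dif M x w0 (up T) = x 0 • m := by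
    intro T
    rw [← hker, map_sub]
    have h2 := congrFun (restr_dif π x hz w0) T
    rw [restr_apply, hw0, hwf] at h2
    rw [h2, restr_apply, sub_self]
  choose h hh using h1
  obtain ⟨h', hh'⟩ : ∃ h' : Finset (Fin (n + 1)) → M, ∀ T, h' (up T) = h T :=
    ⟨extd h (fun _ => 0), fun T => extd_up _ _ T⟩
  have h3 : f - dif M x w0 - dif M x (ext 0 h') = 0 := by
    refine cycle_eq_zero x hreg ?_ fun T => ?_
    · rw [map_sub, map_sub, hf.2, dif_dif, dif_dif, sub_zero, sub_zero]
    · rw [Pi.sub_apply, Pi.sub_apply, hh]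
      have h4 := congrFun (dif_ext x 0 h') (up T)
      rw [Pi.add_apply, Pi.smul_apply, hh'] at h4
      have h5 : ext 0 (dif M x h') (up T) = 0 := if_neg (zero_notMem_up T)
      rw [h5, add_zero] at h4
      rw [h4, sub_self]
  refine boundary_of hf.1 ⟨w0 + ext 0 h', ?_⟩
  rw [map_add]
  rw [sub_sub, sub_eq_zero] at h3
  exact h3.symm

include hker in
theorem restr_cycles {i : ℕ} {f : Finset (Fin (n + 1)) → M} (hf : f ∈ cycles x M i) :
    restr π f ∈ cycles (fun j => x j.succ) M' i := by
  rw [mem_cycles] at hf ⊢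
  refine ⟨fun T hT => ?_, ?_⟩
  · rw [restr_apply, hf.1 _ (by rw [card_up]; exact hT), map_zero]
  · rw [← restr_dif π x (fun m => (hker _).2 ⟨m, rfl⟩), hf.2, map_zero]

include hker in
theorem restr_boundaries {i : ℕ} {f : Finset (Fin (n + 1)) → M} (hf : f ∈ boundaries x M i) :
    restr π f ∈ boundaries (fun j => x j.succ) M' i := by
  rw [mem_boundaries] at hf ⊢
  obtain ⟨w, hw, rfl⟩ := hf
  refine ⟨restr π w, fun T hT => ?_, ?_⟩
  · rw [restr_apply, hw _ (by rw [card_up]; exact hT), map_zero]
  · rw [← restr_dif π x (fun m => (hker _).2 ⟨m, rfl⟩)]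

/-- the map of the cycles -/
def cyc (i : ℕ) (hc : ∀ f ∈ cycles x M i, restr π f ∈ cycles (fun j => x j.succ) M' i) :
    ↥(cycles x M i) →ₗ[A] Homology (fun j => x j.succ) M' i :=
  (Submodule.mkQ _).comp (((restr π).restrict hc))

include hreg hsurj hker in
/-- **Koszul homology modulo a regular element.** -/
theorem homology_reduce (i : ℕ) :
    Nonempty (Homology x M i ≃ₗ[A] Homology (fun j => x j.succ) M' i) := by
  have hc : ∀ f ∈ cycles x M i, restr π f ∈ cycles (fun j => x j.succ) M' i :=
    fun f hf => restr_cycles π x hker hf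
  have h1 : Function.Surjective (cyc π x i hc) := by
    intro y
    obtain ⟨⟨g, hg⟩, rfl⟩ := Submodule.mkQ_surjective _ y
    obtain ⟨f, hf, hfg⟩ := lift_cycle π x hreg hsurj hker hg
    refine ⟨⟨f, hf⟩, ?_⟩
    show Submodule.mkQ _ _ = Submodule.mkQ _ _
    congr 1
    exact Subtype.ext hfg
  have h2 : LinearMap.ker (cyc π x i hc) = (boundaries x M i).submoduleOf (cycles x M i) := by
    ext f
    rw [LinearMap.mem_ker]
    show Submodule.mkQ _ _ = 0 ↔ _
    rw [Submodule.mkQ_apply, Submodule.Quotient.mk_eq_zero]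
    show restr π (f : Finset (Fin (n + 1)) → M) ∈ boundaries (fun j => x j.succ) M' i ↔
      (f : Finset (Fin (n + 1)) → M) ∈ boundaries x M i
    constructor
    · intro h
      exact mem_boundaries_of_restr π x hreg hsurj hker f.2 h
    · intro h
      exact restr_boundaries π x hker h
  exact ⟨(Submodule.quotEquivOfEq _ _ h2.symm).trans
    ((cyc π x i hc).quotKerEquivOfSurjective h1)⟩

include hreg hsurj hker in
theorem finrank_reduce {k : Type*} [Field k] [Algebra k A] [Module k M] [IsScalarTower k A M]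
    [Module k M'] [IsScalarTower k A M'] (i : ℕ) :
    Module.finrank k (Homology x M i) =
      Module.finrank k (Homology (fun j => x j.succ) M' i) := by
  obtain ⟨E⟩ := homology_reduce π x hreg hsurj hker i
  exact (E.restrictScalars k).finrank_eq

end Pool.Agent.X317.Sem
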