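import Mathlib
import Pool.Agent.X317.Sem.Reduce

/-!
# Koszul homology does not depend on the order of the elements; top Koszul homology
-/

set_option autoImplicit false
set_option linter.all false

open Finset Pool.Agent.X317.Kos

namespace Pool.Agent.X317.Sem

variable {n : ℕ}

/-- the sign of a pair -/
def sp (σ : Equiv.Perm (Fin n)) (a b : Fin n) : ℤ := if a < b ∧ σ b < σ a then -1 else 1

/-- the sign of the restriction of a permutation to a subset -/
def ep (σ : Equiv.Perm (Fin n)) (S : Finset (Fin n)) : ℤ := ∏ a ∈ S, ∏ b ∈ S, sp σ a b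

theorem sp_sq (σ : Equiv.Perm (Fin n)) (a b : Fin n) : sp σ a b * sp σ a b = 1 := by
  unfold sp
  split_ifs <;> norm_num

theorem ep_sq (σ : Equiv.Perm (Fin n)) (S : Finset (Fin n)) : ep σ S * ep σ S = 1 := by
  unfold ep
  rw [← Finset.prod_mul_distrib]
  refine Finset.prod_eq_one fun a _ => ?_
  rw [← Finset.prod_mul_distrib]
  exact Finset.prod_eq_one fun b _ => sp_sq σ a b

theorem sgn_prod (S : Finset (Fin n)) (v : Fin n) :
    sgn S v = ∏ w ∈ S, if w < v then (-1 : ℤ) else 1 := by
  unfold sgn
  rw [Finset.prod_ite, Finset.prod_const, Finset.prod_const_one, mul_one]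

theorem sgn_map (σ : Equiv.Perm (Fin n)) (S : Finset (Fin n)) (v : Fin n) :
    sgn (S.map σ.toEmbedding) (σ v) = ∏ w ∈ S, if σ w < σ v then (-1 : ℤ) else 1 := by
  rw [sgn_prod, Finset.prod_map]
  rfl

theorem ep_insert (σ : Equiv.Perm (Fin n)) (S : Finset (Fin n)) (v : Fin n) (hv : v ∉ S) :
    sgn S v * ep σ (insert v S) = ep σ S * sgn (S.map σ.toEmbedding) (σ v) := by
  have h1 : ep σ (insert v S) = (∏ b ∈ S, sp σ v b) * (∏ a ∈ S, sp σ a v) * ep σ S := by
    unfold ep
    rw [Finset.prod_insert hv, Finset.prod_insert hv]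
    have h2 : ∀ a ∈ S, ∏ b ∈ insert v S, sp σ a b = sp σ a v * ∏ b ∈ S, sp σ a b := fun a _ => by
      rw [Finset.prod_insert hv]
    rw [Finset.prod_congr rfl h2, Finset.prod_mul_distrib]
    have h3 : sp σ v v = 1 := by
      unfold sp
      rw [if_neg (fun h => lt_irrefl _ h.1)]
    rw [h3, one_mul]
    ring
  rw [h1, sgn_map, sgn_prod]
  have h4 : ∀ w ∈ S, (if w < v then (-1 : ℤ) else 1) * (sp σ v w * sp σ w v) =
      if σ w < σ v then (-1 : ℤ) else 1 := by
    intro w hw
    have hne : w ≠ v := fun h => hv (h ▸ hw)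
    have hne' : σ w ≠ σ v := fun h => hne (σ.injective h)
    unfold sp
    rcases lt_or_gt_of_ne hne with h | h
    · rw [if_pos h, if_neg (fun h5 => absurd h5.1 (lt_asymm h))]
      rcases lt_or_gt_of_ne hne' with h6 | h6
      · rw [if_neg (fun h7 => absurd h7.2 (lt_asymm h6)), if_pos h6]
        norm_num
      · rw [if_pos ⟨h, h6⟩, if_neg (lt_asymm h6)]
        norm_num
    · rw [if_neg (lt_asymm h), if_neg (c := w < v ∧ σ v < σ w) (fun h5 => absurd h5.1 (lt_asymm h))]
      rcases lt_or_gt_of_ne hne' with h6 | h6
      · rw [if_pos ⟨h, h6⟩, if_pos h6]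
        norm_num
      · rw [if_neg (fun h7 => absurd h7.2 (lt_asymm h6)), if_neg (lt_asymm h6)]
        norm_num
  rw [← Finset.prod_congr rfl h4, Finset.prod_mul_distrib, Finset.prod_mul_distrib]
  ring

variable {A M : Type*} [CommRing A] [AddCommGroup M] [Module A M]

/-- the change of the order -/
def pm (σ : Equiv.Perm (Fin n)) : (Finset (Fin n) → M) →ₗ[A] (Finset (Fin n) → M) where
  toFun f S := ep σ S • f (S.map σ.toEmbedding)
  map_add' f g := by
    funext T
    exact smul_add _ _ _
  map_smul' c f := by
    funext T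
    exact smul_comm _ _ _

theorem pm_apply (σ : Equiv.Perm (Fin n)) (f : Finset (Fin n) → M) (S : Finset (Fin n)) :
    pm (A := A) σ f S = ep σ S • f (S.map σ.toEmbedding) := rfl

theorem map_compl' (σ : Equiv.Perm (Fin n)) (S : Finset (Fin n)) :
    (S.map σ.toEmbedding)ᶜ = Sᶜ.map σ.toEmbedding := by
  ext w
  obtain ⟨v, rfl⟩ := σ.surjective w
  rw [Finset.mem_compl]
  show σ.toEmbedding v ∉ _ ↔ σ.toEmbedding v ∈ _
  rw [Finset.mem_map', Finset.mem_map', Finset.mem_compl]

theorem dif_pm (σ : Equiv.Perm (Fin n)) (x : Fin n → A) (f : Finset (Fin n) → M) :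
    dif M (fun j => x (σ j)) (pm (A := A) σ f) = pm (A := A) σ (dif M x f) := by
  funext S
  rw [pm_apply, dif_apply, dif_apply, map_compl', Finset.sum_map, Finset.smul_sum]
  refine Finset.sum_congr rfl fun v hv => ?_
  rw [Finset.mem_compl] at hv
  show sgn S v • x (σ v) • pm (A := A) σ f (insert v S) =
    ep σ S • sgn (S.map σ.toEmbedding) (σ v) • x (σ v) • f (insert (σ v) (S.map σ.toEmbedding))
  rw [pm_apply, Finset.map_insert, smul_comm (x (σ v)), smul_smul, smul_smul, ep_insert σ S v hv]
  rfl

/-- the inverse -/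
theorem pm_bij (σ : Equiv.Perm (Fin n)) : Function.Bijective (pm (A := A) (M := M) σ) := by
  constructor
  · rw [injective_iff_map_eq_zero]
    intro f hf
    funext T
    have h := congrFun hf (T.map σ.symm.toEmbedding)
    rw [pm_apply] at h
    have h1 : (T.map σ.symm.toEmbedding).map σ.toEmbedding = T := by
      rw [Finset.map_map]
      ext v
      simp
    rw [h1] at h
    have h2 := congrArg (fun m => ep σ (T.map σ.symm.toEmbedding) • m) h
    simp only [smul_smul, ep_sq, one_smul, Pi.zero_apply, smul_zero] at h2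
    exact h2
  · intro g
    refine ⟨fun T => ep σ (T.map σ.symm.toEmbedding) • g (T.map σ.symm.toEmbedding), ?_⟩
    funext S
    rw [pm_apply]
    have h1 : (S.map σ.toEmbedding).map σ.symm.toEmbedding = S := by
      rw [Finset.map_map]
      ext v
      simp
    simp only [h1, smul_smul, ep_sq, one_smul]

theorem pm_cycles (σ : Equiv.Perm (Fin n)) (x : Fin n → A) (i : ℕ) (f : Finset (Fin n) → M) :
    pm (A := A) σ f ∈ cycles (fun j => x (σ j)) M i ↔ f ∈ cycles x M i := by
  rw [mem_cycles, mem_cycles, dif_pm]
  constructor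
  · rintro ⟨h1, h2⟩
    constructor
    · intro T hT
      have h3 := h1 (T.map σ.symm.toEmbedding) (by rwa [Finset.card_map])
      rw [pm_apply] at h3
      have h4 : (T.map σ.symm.toEmbedding).map σ.toEmbedding = T := by
        rw [Finset.map_map]
        ext v
        simp
      rw [h4] at h3
      have h2 := congrArg (fun m => ep σ (T.map σ.symm.toEmbedding) • m) h3
      simp only [smul_smul, ep_sq, one_smul, smul_zero] at h2
      exact h2
    · exact (pm_bij (A := A) σ).1 (h2.trans (map_zero _).symm)
  · rintro ⟨h1, h2⟩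
    constructor
    · intro T hT
      rw [pm_apply, h1 _ (by rwa [Finset.card_map]), smul_zero]
    · rw [h2, map_zero]

theorem pm_supp (σ : Equiv.Perm (Fin n)) (i : ℕ) (f : Finset (Fin n) → M) :
    (∀ T : Finset (Fin n), T.card ≠ i → pm (A := A) σ f T = 0) ↔ ∀ T : Finset (Fin n), T.card ≠ i → f T = 0 := by
  constructor
  · intro h1 T hT
    have h3 := h1 (T.map σ.symm.toEmbedding) (by rwa [Finset.card_map])
    rw [pm_apply] at h3
    have h4 : (T.map σ.symm.toEmbedding).map σ.toEmbedding = T := by
      rw [Finset.map_map]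
      ext v
      simp
    rw [h4] at h3
    have h2 := congrArg (fun m => ep σ (T.map σ.symm.toEmbedding) • m) h3
    simp only [smul_smul, ep_sq, one_smul, smul_zero] at h2
    exact h2
  · intro h1 T hT
    rw [pm_apply, h1 _ (by rwa [Finset.card_map]), smul_zero]

theorem pm_boundaries (σ : Equiv.Perm (Fin n)) (x : Fin n → A) (i : ℕ) (f : Finset (Fin n) → M) :
    pm (A := A) σ f ∈ boundaries (fun j => x (σ j)) M i ↔ f ∈ boundaries x M i := by
  rw [mem_boundaries, mem_boundaries]
  constructor
  · rintro ⟨w, hw, hwf⟩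
    obtain ⟨w', rfl⟩ := (pm_bij (A := A) σ).2 w
    refine ⟨w', (pm_supp (A := A) σ _ w').1 hw, ?_⟩
    rw [dif_pm] at hwf
    exact (pm_bij (A := A) σ).1 hwf
  · rintro ⟨w, hw, rfl⟩
    exact ⟨pm (A := A) σ w, (pm_supp (A := A) σ _ w).2 hw, dif_pm σ x w⟩

/-- **Koszul homology does not depend on the order.** -/
theorem homology_perm (σ : Equiv.Perm (Fin n)) (x : Fin n → A) (i : ℕ) :
    Nonempty (Homology x M i ≃ₗ[A] Homology (fun j => x (σ j)) M i) := by
  let g : ↥(cycles x M i) →ₗ[A] Homology (fun j => x (σ j)) M i :=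
    (Submodule.mkQ _).comp ((pm (A := A) (M := M) σ).restrict
      (q := cycles (fun j => x (σ j)) M i) (fun f hf => (pm_cycles σ x i f).2 hf))
  have h1 : Function.Surjective g := by
    intro y
    obtain ⟨⟨z, hz⟩, rfl⟩ := Submodule.mkQ_surjective _ y
    obtain ⟨f, rfl⟩ := (pm_bij (A := A) σ).2 z
    exact ⟨⟨f, (pm_cycles σ x i f).1 hz⟩, rfl⟩
  have h2 : LinearMap.ker g = (boundaries x M i).submoduleOf (cycles x M i) := by
    ext f
    rw [LinearMap.mem_ker]
    show Submodule.mkQ _ _ = 0 ↔ _
    rw [Submodule.mkQ_apply, Submodule.Quotient.mk_eq_zero]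
    exact pm_boundaries σ x i _
  exact ⟨(Submodule.quotEquivOfEq _ _ h2.symm).trans (g.quotKerEquivOfSurjective h1)⟩

theorem finrank_perm {k : Type*} [Field k] [Algebra k A] [Module k M] [IsScalarTower k A M]
    (σ : Equiv.Perm (Fin n)) (x : Fin n → A) (i : ℕ) :
    Module.finrank k (Homology x M i) = Module.finrank k (Homology (fun j => x (σ j)) M i) := by
  obtain ⟨E⟩ := homology_perm (M := M) σ x i
  exact (E.restrictScalars k).finrank_eq

/-- the elements killed by all the elements of a sequence -/
def soc (k : Type*) [Field k] [Algebra k A] [Module k M] [IsScalarTower k A M] (x : Fin n → A) :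
    Submodule k M where
  carrier := {m | ∀ j, x j • m = 0}
  zero_mem' := fun j => smul_zero _
  add_mem' := fun {a b} ha hb j => by rw [smul_add, ha j, hb j, add_zero]
  smul_mem' := fun c a ha j => by rw [smul_comm, ha j, smul_zero]

theorem mem_soc {k : Type*} [Field k] [Algebra k A] [Module k M] [IsScalarTower k A M]
    {x : Fin n → A} {m : M} : m ∈ soc k x ↔ ∀ j, x j • m = 0 := Iff.rfl

/-- **The top Koszul homology.** -/
theorem finrank_top {k : Type*} [Field k] [Algebra k A] [Module k M] [IsScalarTower k A M]
    (x : Fin n → A) :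
    Module.finrank k (Homology x M n) = Module.finrank k (soc (M := M) k x) := by
  classical
  let g : ↥(soc (M := M) k x) →ₗ[k] Homology x M n :=
    { toFun := fun m => Submodule.Quotient.mk ⟨fun T => if T = univ then (m : M) else 0, by
        rw [mem_cycles]
        constructor
        · intro T hT
          rw [if_neg]
          rintro rfl
          exact hT (by rw [Finset.card_univ, Fintype.card_fin])
        · funext T
          rw [dif_apply]
          refine Finset.sum_eq_zero fun j _ => ?_
          split_ifs
          · rw [m.2 j, smul_zero]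
          · rw [smul_zero, smul_zero]⟩
      map_add' := fun a b => by
        rw [← Submodule.Quotient.mk_add]
        congr 1
        apply Subtype.ext
        funext T
        show (if T = univ then ((a : M) + (b : M)) else 0) =
          (if T = univ then (a : M) else 0) + (if T = univ then (b : M) else 0)
        split_ifs
        · rfl
        · rw [add_zero]
      map_smul' := fun c a => by
        rw [RingHom.id_apply, ← Submodule.Quotient.mk_smul]
        congr 1
        apply Subtype.ext
        funext T
        show (if T = univ then (c • (a : M)) else 0) = c • (if T = univ then (a : M) else 0)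
        split_ifs
        · rfl
        · rw [smul_zero] }
  have hinj : Function.Injective g := by
    rw [injective_iff_map_eq_zero]
    intro m hm
    have h1 := (Submodule.Quotient.mk_eq_zero _).1 hm
    have h2 : (fun T : Finset (Fin n) => if T = univ then (m : M) else 0) ∈ boundaries x M n := h1
    rw [mem_boundaries] at h2
    obtain ⟨w, hw, hwf⟩ := h2
    have h3 : w = 0 := by
      funext T
      refine hw T ?_
      have := Finset.card_le_univ T
      rw [Fintype.card_fin] at this
      omega
    rw [h3, map_zero] at hwf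
    have h4 := congrFun hwf univ
    rw [if_pos rfl] at h4
    exact Subtype.ext h4.symm
  have hsurj : Function.Surjective g := by
    intro y
    obtain ⟨⟨z, hz⟩, rfl⟩ := Submodule.mkQ_surjective _ y
    have hz' := mem_cycles.1 hz
    refine ⟨⟨z univ, fun j => ?_⟩, ?_⟩
    · have h1 := congrFun hz'.2 (univ.erase j)
      rw [dif_apply] at h1
      have h2 : (univ.erase j)ᶜ = {j} := by
        ext v
        simp
      rw [h2, Finset.sum_singleton, Finset.insert_erase (Finset.mem_univ j)] at h1
      have h3 := congrArg (fun m => sgn (univ.erase j) j • m) h1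
      simp only [smul_smul, sgn_mul_self, one_smul, Pi.zero_apply, smul_zero] at h3
      exact h3
    · show Submodule.Quotient.mk _ = Submodule.Quotient.mk _
      congr 1
      apply Subtype.ext
      funext T
      show (if T = univ then z univ else 0) = z T
      split_ifs with h
      · rw [h]
      · rw [hz'.1 T]
        intro h1
        apply h
        rw [← Finset.card_eq_iff_eq_univ, h1, Fintype.card_fin]
  exact (LinearEquiv.ofBijective g ⟨hinj, hsurj⟩).finrank_eq.symm

end Pool.Agent.X317.Sem
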