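import Mathlib
import Pool.Agent.X317.Sem.Rank

/-!
# The ranks of the differentials for the Artinian reduction
-/

set_option autoImplicit false
set_option linter.all false

open Finset Pool.Agent.X317.Kos

namespace Pool.Agent.X317.Sem

variable {n : ℕ} {k A M : Type*} [Field k] [CommRing A] [Algebra k A] [AddCommGroup M] [Module A M]
  [Module k M] [IsScalarTower k A M] (x : Fin n → A) (p q : Fin n)
  (c0 c2 c3 : M →ₗ[k] k) (c1 : Fin n → M →ₗ[k] k)

/-- The action in coordinates. -/
structure Coords : Prop where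
  ne : q ≠ p
  inj : ∀ m : M, c0 m = 0 → (∀ w, c1 w m = 0) → c2 m = 0 → c3 m = 0 → m = 0
  surj : ∀ (a : k) (b : Fin n → k) (c d : k), ∃ m : M, c0 m = a ∧ (∀ w, c1 w m = b w) ∧
    c2 m = c ∧ c3 m = d
  r0 : ∀ v (m : M), c0 (x v • m) = 0
  r1 : ∀ w v (m : M), c1 w (x v • m) = if v = w then c0 m else 0
  r2 : ∀ v (m : M), c2 (x v • m) = if v = p then c1 p m else 0
  r3 : ∀ v (m : M), c3 (x v • m) = (if v = p then c1 q m else 0) + if v = q then c1 p m else 0

variable {x p q c0 c2 c3 c1}

theorem lin_dif (c : M →ₗ[k] k) (f : Finset (Fin n) → M) (T : Finset (Fin n)) :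
    c (dif M x f T) = ∑ j ∈ Tᶜ, (sgn T j : k) * c (x j • f (insert j T)) := by
  rw [dif_apply, map_sum]
  refine Finset.sum_congr rfl fun j _ => ?_
  rw [map_zsmul, zsmul_eq_mul]

theorem sgn_ne_zero (T : Finset (Fin n)) (j : Fin n) : (sgn T j : k) ≠ 0 := by
  intro h
  have h1 := sgn_mul_self T j
  have h2 : ((sgn T j * sgn T j : ℤ) : k) = 1 := by rw [h1, Int.cast_one]
  rw [Int.cast_mul, h, mul_zero] at h2
  exact zero_ne_one h2

theorem sgn_mul_self' (T : Finset (Fin n)) (j : Fin n) : (sgn T j : k) * (sgn T j : k) = 1 := by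
  rw [← Int.cast_mul, sgn_mul_self, Int.cast_one]

variable (H : Coords x p q c0 c2 c3 c1)

include H in
theorem c0_dif (f : Finset (Fin n) → M) (T : Finset (Fin n)) : c0 (dif M x f T) = 0 := by
  rw [lin_dif]
  exact Finset.sum_eq_zero fun j _ => by rw [H.r0, mul_zero]

include H in
theorem c1_dif (f : Finset (Fin n) → M) (T : Finset (Fin n)) (w : Fin n) :
    c1 w (dif M x f T) = if w ∈ T then 0 else (sgn T w : k) * c0 (f (insert w T)) := by
  rw [lin_dif]
  simp only [H.r1]
  split_ifs with h
  · refine Finset.sum_eq_zero fun j hj => ?_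
    rw [if_neg, mul_zero]
    rintro rfl
    exact Finset.mem_compl.1 hj h
  · rw [Finset.sum_eq_single_of_mem w (Finset.mem_compl.2 h), if_pos rfl]
    intro j _ hj
    rw [if_neg hj, mul_zero]

include H in
theorem c2_dif (f : Finset (Fin n) → M) (T : Finset (Fin n)) :
    c2 (dif M x f T) = if p ∈ T then 0 else (sgn T p : k) * c1 p (f (insert p T)) := by
  rw [lin_dif]
  simp only [H.r2]
  split_ifs with h
  · refine Finset.sum_eq_zero fun j hj => ?_
    rw [if_neg, mul_zero]
    rintro rfl
    exact Finset.mem_compl.1 hj h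
  · rw [Finset.sum_eq_single_of_mem p (Finset.mem_compl.2 h), if_pos rfl]
    intro j _ hj
    rw [if_neg hj, mul_zero]

include H in
theorem c3_dif (f : Finset (Fin n) → M) (T : Finset (Fin n)) :
    c3 (dif M x f T) = (if p ∈ T then 0 else (sgn T p : k) * c1 q (f (insert p T))) +
      if q ∈ T then 0 else (sgn T q : k) * c1 p (f (insert q T)) := by
  rw [lin_dif]
  simp only [H.r3, mul_add, Finset.sum_add_distrib]
  congr 1
  · split_ifs with h
    · refine Finset.sum_eq_zero fun j hj => ?_
      rw [if_neg, mul_zero]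
      rintro rfl
      exact Finset.mem_compl.1 hj h
    · rw [Finset.sum_eq_single_of_mem p (Finset.mem_compl.2 h), if_pos rfl]
      intro j _ hj
      rw [if_neg hj, mul_zero]
  · split_ifs with h
    · refine Finset.sum_eq_zero fun j hj => ?_
      rw [if_neg, mul_zero]
      rintro rfl
      exact Finset.mem_compl.1 hj h
    · rw [Finset.sum_eq_single_of_mem q (Finset.mem_compl.2 h), if_pos rfl]
      intro j _ hj
      rw [if_neg hj, mul_zero]

/-- the target -/
abbrev Tar (k : Type*) {n : ℕ} (p : Fin n) (i : ℕ) : Type _ :=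
  ({T : Finset (Fin n) // T.card = i + 1} → k) ×
    (({T : Finset (Fin n) // T.card = i ∧ p ∉ T} → k) ×
      ({T : Finset (Fin n) // T.card = i ∧ p ∉ T} → k))

theorem finrank_tar (k : Type*) [Field k] {n : ℕ} (p : Fin (n + 1)) (i : ℕ) :
    Module.finrank k (Tar k p i) = (n + 1).choose (i + 1) + 2 * n.choose i := by
  classical
  rw [Module.finrank_prod, Module.finrank_prod, Module.finrank_fintype_fun_eq_card,
    Module.finrank_fintype_fun_eq_card, Fintype.card_subtype, Fintype.card_subtype]
  have h1 : (univ.filter fun T : Finset (Fin (n + 1)) => T.card = i + 1) =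
      Finset.powersetCard (i + 1) univ := by
    ext T
    rw [Finset.mem_filter, Finset.mem_powersetCard]
    exact ⟨fun h => ⟨Finset.subset_univ _, h.2⟩, fun h => ⟨Finset.mem_univ _, h.2⟩⟩
  have h2 : (univ.filter fun T : Finset (Fin (n + 1)) => T.card = i ∧ p ∉ T) =
      Finset.powersetCard i (univ.erase p) := by
    ext T
    rw [Finset.mem_filter, Finset.mem_powersetCard]
    constructor
    · rintro ⟨-, h3, h4⟩
      refine ⟨fun t ht => Finset.mem_erase.2 ⟨?_, Finset.mem_univ _⟩, h3⟩
      rintro rfl
      exact h4 ht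
    · rintro ⟨h3, h4⟩
      exact ⟨Finset.mem_univ _, h4, fun h5 => (Finset.mem_erase.1 (h3 h5)).1 rfl⟩
  rw [h1, h2, Finset.card_powersetCard, Finset.card_powersetCard, Finset.card_univ,
    Fintype.card_fin, Finset.card_erase_of_mem (Finset.mem_univ _), Finset.card_univ,
    Fintype.card_fin, Nat.add_sub_cancel]
  ring

/-- the map to the target -/
def toTar (x : Fin n → A) (p : Fin n) (c0 c2 c3 : M →ₗ[k] k) (i : ℕ) :
    ↥(chains A M n (i + 1)) →ₗ[k] Tar k p i where
  toFun f := (fun T => c0 ((f : Finset (Fin n) → M) T),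
    (fun U => c2 (dif M x (f : Finset (Fin n) → M) U),
      fun U => c3 (dif M x (f : Finset (Fin n) → M) U)))
  map_add' f g := by
    refine Prod.ext ?_ (Prod.ext ?_ ?_)
    · funext T
      exact map_add c0 _ _
    · funext T
      show c2 (dif M x ((f : Finset (Fin n) → M) + g) T) = _
      rw [map_add]
      exact map_add c2 _ _
    · funext T
      show c3 (dif M x ((f : Finset (Fin n) → M) + g) T) = _
      rw [map_add]
      exact map_add c3 _ _
  map_smul' c f := by
    have h1 : dif M x (c • (f : Finset (Fin n) → M)) = c • dif M x (f : Finset (Fin n) → M) := by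
      rw [← IsScalarTower.algebraMap_smul A c (f : Finset (Fin n) → M), map_smul,
        IsScalarTower.algebraMap_smul]
    refine Prod.ext ?_ (Prod.ext ?_ ?_)
    · funext T
      exact map_smul c0 _ _
    · funext T
      show c2 (dif M x (c • (f : Finset (Fin n) → M)) T) = _
      rw [h1]
      exact map_smul c2 _ _
    · funext T
      show c3 (dif M x (c • (f : Finset (Fin n) → M)) T) = _
      rw [h1]
      exact map_smul c3 _ _

include H in
theorem toTar_ker (i : ℕ) (f : ↥(chains A M n (i + 1))) :
    toTar x p c0 c2 c3 i f = 0 ↔ dif M x (f : Finset (Fin n) → M) = 0 := by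
  constructor
  · intro h
    have h1 : ∀ T : Finset (Fin n), T.card = i + 1 → c0 ((f : Finset (Fin n) → M) T) = 0 :=
      fun T hT => congrFun (congrArg Prod.fst h) ⟨T, hT⟩
    have h2 : ∀ U : Finset (Fin n), U.card = i → p ∉ U →
        c2 (dif M x (f : Finset (Fin n) → M) U) = 0 :=
      fun U hU hp => congrFun (congrArg (fun z => z.2.1) h) ⟨U, hU, hp⟩
    have h3 : ∀ U : Finset (Fin n), U.card = i → p ∉ U →
        c3 (dif M x (f : Finset (Fin n) → M) U) = 0 :=
      fun U hU hp => congrFun (congrArg (fun z => z.2.2) h) ⟨U, hU, hp⟩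
    funext U
    by_cases hU : U.card = i
    swap
    · exact dif_supp f.2 U hU
    refine H.inj _ (c0_dif H _ _) ?_ ?_ ?_
    · intro w
      rw [c1_dif H]
      split_ifs with h4
      · rfl
      · rw [h1 _ (by rw [Finset.card_insert_of_notMem h4, hU]), mul_zero]
    · by_cases hp : p ∈ U
      · rw [c2_dif H, if_pos hp]
      · exact h2 U hU hp
    · by_cases hp : p ∈ U
      · rw [c3_dif H, if_pos hp, zero_add]
        split_ifs with hq
        · rfl
        · have h4 : p ∉ (insert q U).erase p := Finset.notMem_erase _ _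
          have h5 : insert p ((insert q U).erase p) = insert q U :=
            Finset.insert_erase (Finset.mem_insert_of_mem hp)
          have h6 := h2 ((insert q U).erase p) (by
            rw [Finset.card_erase_of_mem (Finset.mem_insert_of_mem hp),
              Finset.card_insert_of_notMem hq, hU, Nat.add_sub_cancel]) h4
          rw [c2_dif H, if_neg h4, h5] at h6
          rw [(mul_eq_zero.1 h6).resolve_left (sgn_ne_zero _ _), mul_zero]
      · exact h3 U hU hp
  · intro h
    refine Prod.ext ?_ (Prod.ext ?_ ?_)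
    · funext T
      show c0 ((f : Finset (Fin n) → M) T) = 0
      obtain ⟨w, hw⟩ : (T : Finset (Fin n)).Nonempty := by
        rw [← Finset.card_pos, T.2]
        exact Nat.succ_pos _
      have h1 := c1_dif H (f : Finset (Fin n) → M) ((T : Finset (Fin n)).erase w) w
      rw [h, if_neg (Finset.notMem_erase _ _), Finset.insert_erase hw] at h1
      rw [Pi.zero_apply, map_zero] at h1
      exact (mul_eq_zero.1 h1.symm).resolve_left (sgn_ne_zero _ _)
    · funext U
      show c2 (dif M x (f : Finset (Fin n) → M) U) = 0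
      rw [h]
      exact map_zero c2
    · funext U
      show c3 (dif M x (f : Finset (Fin n) → M) U) = 0
      rw [h]
      exact map_zero c3

include H in
theorem toTar_surj (i : ℕ) : Function.Surjective (toTar x p c0 c2 c3 i) := by
  rintro ⟨α, β, γ⟩
  choose s s0 s1 s2 s3 using H.surj
  let α' : Finset (Fin n) → k := fun T => if h : T.card = i + 1 then α ⟨T, h⟩ else 0
  let β' : Finset (Fin n) → k := fun T => if h : T.card = i ∧ p ∉ T then β ⟨T, h⟩ else 0
  let γ' : Finset (Fin n) → k := fun T => if h : T.card = i ∧ p ∉ T then γ ⟨T, h⟩ else 0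
  let F : Finset (Fin n) → M := fun T =>
    if T.card = i + 1 then
      s (α' T) (fun w =>
        if p ∈ T then
          if w = p then (sgn (T.erase p) p : k) * β' (T.erase p)
          else if w = q then (sgn (T.erase p) p : k) * γ' (T.erase p) else 0
        else 0) 0 0
    else 0
  have hF : ∀ T, T.card ≠ i + 1 → F T = 0 := fun T hT => if_neg hT
  have hF0 : ∀ T, T.card = i + 1 → c0 (F T) = α' T := by
    intro T hT
    simp only [F]
    rw [if_pos hT, s0]
  have hFp : ∀ T, T.card = i + 1 → p ∈ T →
      c1 p (F T) = (sgn (T.erase p) p : k) * β' (T.erase p) := by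
    intro T hT hp
    simp only [F]
    rw [if_pos hT, s1, if_pos hp, if_pos rfl]
  have hFq : ∀ T, T.card = i + 1 → p ∈ T →
      c1 q (F T) = (sgn (T.erase p) p : k) * γ' (T.erase p) := by
    intro T hT hp
    simp only [F]
    rw [if_pos hT, s1, if_pos hp, if_neg H.ne, if_pos rfl]
  have hFn : ∀ T, T.card = i + 1 → p ∉ T → c1 p (F T) = 0 := by
    intro T hT hp
    simp only [F]
    rw [if_pos hT, s1, if_neg hp]
  refine ⟨⟨F, hF⟩, ?_⟩
  refine Prod.ext ?_ (Prod.ext ?_ ?_)
  · funext T
    show c0 (F T) = α T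
    rw [hF0 T T.2]
    exact dif_pos T.2
  · funext U
    show c2 (dif M x F U) = β U
    have h1 : (insert p (U : Finset (Fin n))).card = i + 1 := by
      rw [Finset.card_insert_of_notMem U.2.2, U.2.1]
    rw [c2_dif H, if_neg U.2.2, hFp _ h1 (Finset.mem_insert_self _ _),
      Finset.erase_insert U.2.2, ← mul_assoc, sgn_mul_self', one_mul]
    exact dif_pos U.2
  · funext U
    show c3 (dif M x F U) = γ U
    have h1 : (insert p (U : Finset (Fin n))).card = i + 1 := by
      rw [Finset.card_insert_of_notMem U.2.2, U.2.1]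
    rw [c3_dif H, if_neg U.2.2, hFq _ h1 (Finset.mem_insert_self _ _),
      Finset.erase_insert U.2.2, ← mul_assoc, sgn_mul_self', one_mul]
    have h2 : (if q ∈ (U : Finset (Fin n)) then (0 : k)
        else (sgn (U : Finset (Fin n)) q : k) * c1 p (F (insert q U))) = 0 := by
      split_ifs with hq
      · rfl
      · rw [hFn _ (by rw [Finset.card_insert_of_notMem hq, U.2.1]), mul_zero]
        rw [Finset.mem_insert, not_or]
        exact ⟨fun h => H.ne h.symm, U.2.2⟩
    rw [h2, add_zero]
    exact dif_pos U.2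

end Pool.Agent.X317.Sem

namespace Pool.Agent.X317.Sem

variable {n : ℕ} {k A M : Type*} [Field k] [CommRing A] [Algebra k A] [AddCommGroup M] [Module A M]
  [Module k M] [IsScalarTower k A M] {x : Fin (n + 1) → A} {p q : Fin (n + 1)}
  {c0 c2 c3 : M →ₗ[k] k} {c1 : Fin (n + 1) → M →ₗ[k] k} (H : Coords x p q c0 c2 c3 c1)

include H in
theorem coords_equiv :
    Nonempty (M ≃ₗ[k] (k × (Fin (n + 1) → k)) × (k × k)) := by
  let L : M →ₗ[k] (k × (Fin (n + 1) → k)) × (k × k) :=
    (c0.prod (LinearMap.pi c1)).prod (c2.prod c3)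
  refine ⟨LinearEquiv.ofBijective L ⟨?_, ?_⟩⟩
  · rw [← LinearMap.ker_eq_bot, LinearMap.ker_eq_bot']
    intro m hm
    refine H.inj m ?_ ?_ ?_ ?_
    · exact congrArg (fun z => z.1.1) hm
    · intro w
      exact congrFun (congrArg (fun z => z.1.2) hm) w
    · exact congrArg (fun z => z.2.1) hm
    · exact congrArg (fun z => z.2.2) hm
  · rintro ⟨⟨a, b⟩, c, d⟩
    obtain ⟨m, h0, h1, h2, h3⟩ := H.surj a b c d
    refine ⟨m, Prod.ext (Prod.ext h0 (funext h1)) (Prod.ext h2 h3)⟩

include H in
theorem coords_finite : Module.Finite k M := by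
  obtain ⟨E⟩ := coords_equiv H
  exact Module.Finite.equiv E.symm

include H in
theorem coords_finrank : Module.finrank k M = n + 4 := by
  obtain ⟨E⟩ := coords_equiv H
  rw [E.finrank_eq, Module.finrank_prod, Module.finrank_prod, Module.finrank_prod,
    Module.finrank_fintype_fun_eq_card, Fintype.card_fin, Module.finrank_self]
  ring

include H in
theorem finrank_B (i : ℕ) :
    Module.finrank k ↥(boundaries x M i) = (n + 1).choose (i + 1) + 2 * n.choose i := by
  have := coords_finite H
  rw [finrank_boundaries x i (toTar x p c0 c2 c3 i) (toTar_surj H i) (toTar_ker H i),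
    finrank_tar]

theorem binom_identity (n i : ℕ) (a : ℕ)
    (h : a + ((n + 1).choose (i + 2) + 2 * n.choose (i + 1)) +
      ((n + 1).choose (i + 1) + 2 * n.choose i) = (n + 1).choose (i + 1) * (n + 4)) :
    a = (i + 1) * (n + 2).choose (i + 2) := by
  have h1 : (n + 1).choose (i + 1) = n.choose i + n.choose (i + 1) := Nat.choose_succ_succ _ _
  have h2 : (n + 2).choose (i + 2) = (n + 1).choose (i + 1) + (n + 1).choose (i + 2) :=
    Nat.choose_succ_succ _ _
  have h3 : (n + 1).choose (i + 1) * (n + 1) =
      (i + 2) * (n + 1).choose (i + 2) + (i + 1) * (n + 1).choose (i + 1) := by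
    rcases le_or_gt i n with hi | hi
    · have h4 := Nat.choose_succ_right_eq (n + 1) (i + 1)
      obtain ⟨d, rfl⟩ := Nat.exists_eq_add_of_le hi
      have h5 : i + d + 1 - (i + 1) = d := by omega
      rw [h5] at h4
      have h6 : (i + d + 1).choose (i + 1 + 1) = (i + d + 1).choose (i + 2) := rfl
      rw [h6] at h4
      nlinarith
    · rw [Nat.choose_eq_zero_of_lt (by omega : n + 1 < i + 1),
        Nat.choose_eq_zero_of_lt (by omega : n + 1 < i + 2)]
      ring
  rw [h2]
  nlinarith

include H in
/-- **The Betti numbers.** -/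
theorem finrank_coords (i : ℕ) :
    Module.finrank k (Homology x M (i + 1)) = (i + 1) * (n + 2).choose (i + 2) := by
  have := coords_finite H
  have h1 := finrank_main (k := k) (M := M) x i
  rw [finrank_B H, finrank_B H, coords_finrank H] at h1
  exact binom_identity n i _ h1

end Pool.Agent.X317.Sem
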