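import Mathlib
import Pool.Agent.X317.Sem.Reduce
import Pool.Agent.X317.Sem.RankB

/-!
# The semigroup rings
-/

set_option autoImplicit false
set_option linter.all false

open Finset Pool.Agent.X317.Kos

namespace Pool.Agent.X317.Sem

/-- the members of the semigroup -/
def PP (e n' d : ℕ) : Prop := d = 0 ∨ (e ≤ d ∧ d ≠ e + 2 ∧ d ≠ e + n')

section Descend

variable {k A M V : Type*} [Field k] [CommRing A] [Algebra k A] [AddCommGroup M] [Module A M]
  [Module k M] [IsScalarTower k A M] [AddCommGroup V] [Module k V]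

/-- a `k`-linear map on the quotient by an `A`-submodule -/
def descend (p : Submodule A M) (c : M →ₗ[k] V) (h : ∀ m ∈ p, c m = 0) : (M ⧸ p) →ₗ[k] V :=
  ((p.restrictScalars k).liftQ c (fun m hm => LinearMap.mem_ker.2 (h m hm))) ∘ₗ
    (Submodule.Quotient.restrictScalarsEquiv k p).symm.toLinearMap

theorem descend_mk (p : Submodule A M) (c : M →ₗ[k] V) (h : ∀ m ∈ p, c m = 0) (m : M) :
    descend p c h (p.mkQ m) = c m := rfl

end Descend

/-- the generators without the first one -/
def gg (n' w : ℕ) : ℕ := if w + 1 < 2 then w + 1 else if w + 2 < n' then w + 2 else w + 3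

theorem gg_spec {n' : ℕ} (hn' : n' = 4 ∨ n' = 5) {n w : ℕ} (hw : w < n + 1) :
    1 ≤ gg n' w ∧ gg n' w < n + 4 ∧ gg n' w ≠ 2 ∧ gg n' w ≠ n' := by
  unfold gg
  split_ifs <;> omega

theorem gg_inj {n' : ℕ} {v w : ℕ} (h : gg n' v = gg n' w) : v = w := by
  unfold gg at h
  by_cases h1 : v + 1 < 2
  · rw [if_pos h1] at h
    split_ifs at h <;> omega
  · rw [if_neg h1] at h
    by_cases h2 : v + 2 < n'
    · rw [if_pos h2] at h
      split_ifs at h <;> omega
    · rw [if_neg h2] at h
      split_ifs at h <;> omega

theorem gg_surj {n' : ℕ} (hn' : n' = 4 ∨ n' = 5) {n j : ℕ} (hn : 2 ≤ n) (h0 : 0 < j) (h1 : j < n + 4)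
    (h2 : j ≠ 2) (h3 : j ≠ n') : ∃ w < n + 1, gg n' w = j := by
  by_cases h4 : j = 1
  · refine ⟨0, by omega, ?_⟩
    unfold gg
    rw [if_pos (by omega), h4]
  by_cases h5 : j < n'
  · refine ⟨j - 2, by omega, ?_⟩
    unfold gg
    rw [if_neg (by omega), if_pos (by omega)]
    omega
  · refine ⟨j - 3, by omega, ?_⟩
    unfold gg
    rw [if_neg (by omega), if_neg (by omega)]
    omega

variable {n : ℕ} {k A M : Type*} [Field k] [CommRing A] [Algebra k A] [AddCommGroup M] [Module A M]
  [Module k M] [IsScalarTower k A M]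

theorem semi {n' : ℕ} (hn' : n' = 4 ∨ n' = 5) (hn : 2 ≤ n) (x : Fin (n + 2) → A)
    (ι : M →ₗ[k] Polynomial k) (hinj : Function.Injective ι)
    (hrange : ∀ f : Polynomial k, (∃ m, ι m = f) ↔ ∀ d, f.coeff d ≠ 0 → PP (n + 4) n' d)
    (hx0 : ∀ m, ι (x 0 • m) = Polynomial.X ^ (n + 4) * ι m)
    (hx : ∀ (v : Fin (n + 1)) m, ι (x v.succ • m) = Polynomial.X ^ (n + 4 + gg n' v) * ι m)
    (i : ℕ) :
    Module.finrank k (Homology x M (i + 1)) = (i + 1) * (n + 2).choose (i + 2) := by
  classical
  have hP : ∀ (m : M) (d : ℕ), ¬ PP (n + 4) n' d → (ι m).coeff d = 0 := by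
    intro m d hd
    by_contra h
    exact hd ((hrange (ι m)).1 ⟨m, rfl⟩ d h)
  let p : Submodule A M := LinearMap.range (LinearMap.lsmul A M (x 0))
  have hp : ∀ m, m ∈ p ↔ ∃ m', m = x 0 • m' := by
    intro m
    rw [LinearMap.mem_range]
    exact ⟨fun ⟨y, hy⟩ => ⟨y, hy.symm⟩, fun ⟨y, hy⟩ => ⟨y, hy.symm⟩⟩
  have hreg : ∀ m : M, x 0 • m = 0 → m = 0 := by
    intro m hm
    apply hinj
    have h1 := hx0 m
    rw [hm, map_zero] at h1
    rw [map_zero]
    exact (mul_eq_zero.1 h1.symm).resolve_left (pow_ne_zero _ Polynomial.X_ne_zero)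
  have hker : ∀ m, p.mkQ m = 0 ↔ ∃ m', m = x 0 • m' := by
    intro m
    rw [Submodule.mkQ_apply, Submodule.Quotient.mk_eq_zero, hp]
  rw [finrank_reduce p.mkQ x hreg (Submodule.mkQ_surjective p) hker]
  let cf : ℕ → (M →ₗ[k] k) := fun d => (Polynomial.lcoeff k d) ∘ₗ ι
  have hcf : ∀ d m, cf d m = (ι m).coeff d := fun d m => rfl
  have hv : ∀ d, (d < n + 4 ∨ ¬ PP (n + 4) n' (d - (n + 4))) → ∀ m ∈ p, cf d m = 0 := by
    intro d hd m hm
    obtain ⟨y, rfl⟩ := (hp m).1 hm
    rw [hcf, hx0, Polynomial.coeff_X_pow_mul']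
    split_ifs with h
    · rcases hd with hd | hd
      · omega
      · exact hP y _ hd
    · rfl
  have hgw : ∀ w : Fin (n + 1), 1 ≤ gg n' w ∧ gg n' w < n + 4 ∧ gg n' w ≠ 2 ∧ gg n' w ≠ n' :=
    fun w => gg_spec hn' w.2
  have hv1 : ∀ w : Fin (n + 1), (n + 4 + gg n' w < n + 4 ∨
      ¬ PP (n + 4) n' (n + 4 + gg n' w - (n + 4))) := by
    intro w
    right
    have := hgw w
    unfold PP
    omega
  have hv2 : (2 * (n + 4) + 2 < n + 4 ∨ ¬ PP (n + 4) n' (2 * (n + 4) + 2 - (n + 4))) := by
    right
    unfold PP
    omega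
  have hv3 : (2 * (n + 4) + n' < n + 4 ∨ ¬ PP (n + 4) n' (2 * (n + 4) + n' - (n + 4))) := by
    right
    unfold PP
    omega
  let q : Fin (n + 1) := ⟨n' - 3, by omega⟩
  have hg0 : gg n' ((0 : Fin (n + 1)) : ℕ) = 1 := by
    rw [Fin.val_zero]
    unfold gg
    split_ifs <;> omega
  have hgq : gg n' (q : ℕ) = n' - 1 := by
    show gg n' (n' - 3) = n' - 1
    unfold gg
    split_ifs <;> omega
  have hne : q ≠ 0 := by
    intro h
    rw [h, hg0] at hgq
    omega
  have hgne : ∀ v w : Fin (n + 1), v ≠ w → gg n' v ≠ gg n' w := by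
    intro v w h h1
    exact h (Fin.ext (gg_inj h1))
  have H : Coords (M := M ⧸ p) (fun v : Fin (n + 1) => x v.succ) 0 q
      (descend p (cf 0) (hv 0 (Or.inl (by omega))))
      (descend p (cf (2 * (n + 4) + 2)) (hv _ hv2))
      (descend p (cf (2 * (n + 4) + n')) (hv _ hv3))
      (fun w => descend p (cf (n + 4 + gg n' w)) (hv _ (hv1 w))) := by
    refine ⟨hne, ?_, ?_, ?_, ?_, ?_, ?_⟩
    · intro m' h0 h1 h2 h3
      obtain ⟨m, rfl⟩ := Submodule.mkQ_surjective p m'
      rw [descend_mk, hcf] at h0 h2 h3
      have h1' : ∀ w : Fin (n + 1), (ι m).coeff (n + 4 + gg n' w) = 0 := by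
        intro w
        have := h1 w
        rw [descend_mk, hcf] at this
        exact this
      have hPd : ∀ d, (ι m).coeff d ≠ 0 → n + 4 ≤ d ∧ PP (n + 4) n' (d - (n + 4)) := by
        intro d hd
        have h4 : PP (n + 4) n' d := by
          by_contra h5
          exact hd (hP m d h5)
        have h5 : d ≠ 0 := by
          rintro rfl
          exact hd h0
        have h6 : d ≠ 2 * (n + 4) + 2 := by
          rintro rfl
          exact hd h2
        have h7 : d ≠ 2 * (n + 4) + n' := by
          rintro rfl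
          exact hd h3
        rcases h4 with h4 | ⟨h8, h9, h10⟩
        · exact absurd h4 h5
        refine ⟨h8, ?_⟩
        by_cases h11 : d = n + 4
        · left
          omega
        by_cases h12 : d < 2 * (n + 4)
        · exfalso
          obtain ⟨w, hw, hgw⟩ := gg_surj hn' (n := n) (j := d - (n + 4)) hn (by omega) (by omega)
            (by omega) (by omega)
          have h13 := h1' ⟨w, hw⟩
          apply hd
          rw [← h13]
          congr 1
          show d = n + 4 + gg n' w
          omega
        · right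
          omega
      obtain ⟨b, hb⟩ : Polynomial.X ^ (n + 4) ∣ ι m := by
        rw [Polynomial.X_pow_dvd_iff]
        intro d hd
        by_contra h4
        have := (hPd d h4).1
        omega
      obtain ⟨y, hy⟩ := (hrange b).2 (by
        intro d hd
        have h4 := hPd (d + (n + 4)) (by rw [hb, Polynomial.coeff_X_pow_mul]; exact hd)
        have h5 : d + (n + 4) - (n + 4) = d := by omega
        rw [h5] at h4
        exact h4.2)
      rw [hker]
      refine ⟨y, hinj ?_⟩
      rw [hx0, hy, hb]
    · intro a b c d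
      let h : ℕ → k := Function.extend (fun w : Fin (n + 1) => n + 4 + gg n' w) b
        (fun s => if s = 0 then a else if s = 2 * (n + 4) + 2 then c else
          if s = 2 * (n + 4) + n' then d else 0)
      have hin : Function.Injective (fun w : Fin (n + 1) => n + 4 + gg n' w) := by
        intro v w hvw
        exact Fin.ext (gg_inj (Nat.add_left_cancel hvw))
      have e1 : ∀ w : Fin (n + 1), h (n + 4 + gg n' w) = b w := fun w =>
        hin.extend_apply b _ w
      have e2 : ∀ s, (s < n + 4 ∨ 2 * (n + 4) ≤ s) → h s =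
          if s = 0 then a else if s = 2 * (n + 4) + 2 then c else
          if s = 2 * (n + 4) + n' then d else 0 := by
        intro s hs
        refine Function.extend_apply' _ _ _ ?_
        rintro ⟨w, hw⟩
        have h1 : n + 4 + gg n' w = s := hw
        have := hgw w
        omega
      have e3 : ∀ s, ¬ PP (n + 4) n' s → h s = 0 := by
        intro s hs
        unfold PP at hs
        refine (Function.extend_apply' _ _ _ ?_).trans ?_
        · rintro ⟨w, hw⟩
          have h1 : n + 4 + gg n' w = s := hw
          have := hgw w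
          omega
        · rw [if_neg (by omega), if_neg (by omega), if_neg (by omega)]
      let f : Polynomial k := ∑ s ∈ range (3 * (n + 4)), Polynomial.monomial s (h s)
      have hf : ∀ s, f.coeff s = if s ∈ range (3 * (n + 4)) then h s else 0 := by
        intro s
        simp only [f]
        rw [Polynomial.finset_sum_coeff]
        simp only [Polynomial.coeff_monomial]
        rw [Finset.sum_ite_eq']
      have hf' : ∀ s, s < 3 * (n + 4) → f.coeff s = h s := fun s hs => by
        rw [hf, if_pos (Finset.mem_range.2 hs)]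
      obtain ⟨m, hm⟩ := (hrange f).2 (by
        intro s hs
        by_contra h4
        apply hs
        rw [hf]
        split_ifs
        · exact e3 s h4
        · rfl)
      refine ⟨p.mkQ m, ?_, ?_, ?_, ?_⟩
      · rw [descend_mk, hcf, hm, hf' _ (by omega), e2 _ (by omega), if_pos rfl]
      · intro w
        rw [descend_mk, hcf, hm, hf' _ (by have := hgw w; omega), e1]
      · rw [descend_mk, hcf, hm, hf' _ (by omega), e2 _ (by omega), if_neg (by omega), if_pos rfl]
      · rw [descend_mk, hcf, hm, hf' _ (by omega), e2 _ (by omega), if_neg (by omega),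
          if_neg (by omega), if_pos rfl]
    · intro v m'
      obtain ⟨m, rfl⟩ := Submodule.mkQ_surjective p m'
      rw [← map_smul, descend_mk, hcf, hx, Polynomial.coeff_X_pow_mul', if_neg (by omega)]
    · intro w v m'
      obtain ⟨m, rfl⟩ := Submodule.mkQ_surjective p m'
      rw [← map_smul, descend_mk, descend_mk, hcf, hcf, hx, Polynomial.coeff_X_pow_mul']
      by_cases hvw : v = w
      · subst hvw
        rw [if_pos (le_refl _), if_pos rfl, Nat.sub_self]
      · rw [if_neg hvw]
        split_ifs with h4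
        · have h5 := hgne v w hvw
          have h6 := hgw v
          have h7 := hgw w
          refine hP m _ ?_
          unfold PP
          omega
        · rfl
    · intro v m'
      obtain ⟨m, rfl⟩ := Submodule.mkQ_surjective p m'
      rw [← map_smul, descend_mk, descend_mk, hcf, hcf, hx, Polynomial.coeff_X_pow_mul']
      have h6 := hgw v
      rw [if_pos (by omega)]
      by_cases hv0 : v = 0
      · subst hv0
        rw [if_pos rfl, hg0]
        congr 1
        omega
      · rw [if_neg hv0]
        have h5 := hgne v 0 hv0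
        rw [hg0] at h5
        refine hP m _ ?_
        unfold PP
        omega
    · intro v m'
      obtain ⟨m, rfl⟩ := Submodule.mkQ_surjective p m'
      rw [← map_smul, descend_mk, descend_mk, descend_mk, hcf, hcf, hcf, hx,
        Polynomial.coeff_X_pow_mul']
      have h6 := hgw v
      rw [if_pos (by omega)]
      by_cases hv0 : v = 0
      · subst hv0
        rw [if_pos rfl, if_neg (fun h => hne h.symm), hg0, hgq, add_zero]
        congr 1
        omega
      · rw [if_neg hv0, zero_add]
        by_cases hvq : v = q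
        · rw [if_pos hvq, hvq, hgq, hg0]
          congr 1
          omega
        · rw [if_neg hvq]
          have h5 := hgne v 0 hv0
          rw [hg0] at h5
          have h8 := hgne v q hvq
          rw [hgq] at h8
          refine hP m _ ?_
          unfold PP
          omega
  exact finrank_coords H i

end Pool.Agent.X317.Sem
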